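import Pool.Agent.N224.Bary.Sphere

/-!
# An expanding Thurston map without a smooth model

The barycentric subdivision map `bf` of the double of a triangle is an expanding Thurston map with a
fixed critical point. It is not topologically conjugate to any continuously differentiable map of the
standard two-sphere.
-/

set_option autoImplicit false

open Pool.Agent.N224.Bary

namespace Pool.Agent.Results.MP_89829e_an.NoSmoothModel

/-- There is an expanding Thurston map of a topological two-sphere which is not topologically
conjugate to any map of the standard sphere of class `C¹`; in particular not to any smooth expanding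
Thurston map of the Riemann sphere. -/
theorem _root_.Pool.Agent.Results.MP_89829e_an.NoSmoothModel.result :
    ∃ (S : Type) (_ : MetricSpace S) (𝒜 : Orientation S) (f : S → S),
      Nonempty (S ≃ₜ Sph) ∧ IsThurstonMap 𝒜 f ∧ IsExpanding f ∧
      ∀ g : Sph → Sph, IsC1 g → ∀ h : S ≃ₜ Sph, ¬ ∀ x, h (f x) = g (h x) :=
  ⟨Pil, inferInstance, orient, bf, exists_homeo_Sph, isThurstonMap, isExpanding, no_C1_model⟩

end Pool.Agent.Results.MP_89829e_an.NoSmoothModel
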